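import Pool.Agent.Q314.BE.Asm3
import Pool.Agent.Q314.BE.TaskUniq
import Pool.Agent.Q314.BE.TaskDigits
import Pool.Agent.Q314.BE.TaskScale
import Pool.Agent.Q314.BE.TaskCover
import Pool.Agent.Q314.BE.TaskSym
import Pool.Agent.Q314.BE.TaskS
import Pool.Agent.Q314.BE.TaskSLLN
import Pool.Agent.Q314.BE.TaskInt
import Pool.Agent.Q314.BE.TaskMeanSym
import Pool.Agent.Q314.BE.TaskMeanLen
import Pool.Agent.Q314.BE.TaskOneFull
import Pool.Agent.Q314.BE.TaskNear
import Pool.Agent.Q314.BE.TaskEntry
import Pool.Agent.Q314.BE.TaskRet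
import Pool.Agent.Q314.BE.TaskStep
import Pool.Agent.Q314.BE.TaskBC
import Pool.Agent.Q314.BE.TaskTail
import Pool.Agent.Q314.BE.TaskSeg
import Pool.Agent.Q314.BE.TaskFreq
import Pool.Agent.Q314.BE.TaskPrefix
import Pool.Agent.Q314.BE.TaskExp
import Pool.Agent.Q314.BE.TaskInjB
import Pool.Agent.Q314.BE.TaskIbeta
import Pool.Agent.Q314.BE.TaskPre
import Pool.Agent.Q314.BE.TaskWords

set_option autoImplicit false

/-!
# A continuum of balanced beta-expansions

For every non-integer `β > 2` Lebesgue almost every `x` in `[0, m / (β - 1)]`, `m = ⌊β⌋`, has a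
continuum of balanced `β`-expansions with digits `0, ..., m`.

Proof. Let `U` be the interval of length one in the middle of `I_β` and `T : U → U` the map
`T x = β x - e`. Cutting the `T`-expansion of `x` into the first full cylinders gives, for
Lebesgue measure on `U`, independent identically distributed blocks, whose law is invariant under
the reflection `e ↦ m - e` of the digits; so by the law of large numbers the `T`-expansion is
balanced for almost all `x`. At the end of very long segments, when the point has entered a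
certain cylinder `[1 v]`, one may use instead the digits `0` and then digits `m` until the point is
in `U` again. The density of the law of the new point grows at most by a bounded factor `D k`, so
for suitable lengths of the segments the averages are good for all `2 ^ k` words of choices and all
large `k`, by the Borel-Cantelli lemma.
-/

namespace Pool.Agent.Results.MP_d3ee63_an.Continuum

open MeasureTheory Filter Topology Set

/-- `ε = (ε_1, ε_2, ...)` (indexed from `0`) is a `β`-expansion of `x` over `{0, ..., ⌊β⌋}` -/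
def IsExpansion (β x : ℝ) (ε : ℕ → ℕ) : Prop :=
  (∀ i, ε i ≤ ⌊β⌋₊) ∧ HasSum (fun i => (ε i : ℝ) / β ^ (i + 1)) x

/-- the digit `k` has the frequency `q` in `ε` -/
def HasFreq (ε : ℕ → ℕ) (k : ℕ) (q : ℝ) : Prop :=
  Tendsto (fun n : ℕ => (((Finset.range n).filter (fun i => ε i = k)).card : ℝ) / n) atTop (𝓝 q)

/-- `ε` is balanced: all frequencies exist and those of `k` and `⌊β⌋ - k` are equal -/
def Balanced (β : ℝ) (ε : ℕ → ℕ) : Prop :=
  ∀ k ≤ ⌊β⌋₊, ∃ q, HasFreq ε k q ∧ HasFreq ε (⌊β⌋₊ - k) q

open Pool.Agent.Q314.BE in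
theorem result : ∀ β : ℝ, 2 < β → (∀ k : ℕ, (k : ℝ) ≠ β) →
    ∀ᵐ x ∂(volume.restrict (Icc 0 ((⌊β⌋₊ : ℝ) / (β - 1)))),
      Cardinal.mk {ε : ℕ → ℕ // IsExpansion β x ε ∧ Balanced β ε} = Cardinal.continuum := by
  have hS := taskS taskUniq taskScale taskCover
  have hI := taskInt taskUniq taskCover hS
  have hfin := final taskUniq taskScale hS taskSLLN hI
    (taskMeanSym taskDigits taskSym hS hI) (taskMeanLen taskDigits hS hI) taskRet
    (taskStep taskScale hS taskRet) taskBC taskNull taskTail taskSeg taskFreq taskPrefix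
    (taskExp taskPrefix) (taskWords taskDigits taskRet) (taskInj taskPrefix) taskOne taskFullFlat
    (taskNear hS) (taskEntry taskUniq taskFullFlat hS) (taskIbeta taskScale) taskPre
  intro β h2 hn
  filter_upwards [hfin β h2 hn] with x hx
  apply le_antisymm
  · calc Cardinal.mk {ε : ℕ → ℕ // IsExpansion β x ε ∧ Balanced β ε} ≤ Cardinal.mk (ℕ → ℕ) :=
        Cardinal.mk_subtype_le _
      _ = Cardinal.continuum := by simp
  · rw [← hx]
    refine Cardinal.mk_le_of_injective (f := fun ε => (⟨ε.1, ?_⟩ :
      {ε : ℕ → ℕ // IsExpansion β x ε ∧ Balanced β ε})) ?_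
    · obtain ⟨ε, h1, h3, q, hq⟩ := ε
      refine ⟨⟨h1, h3⟩, fun k hk => ⟨q k, (hq k hk).2, ?_⟩⟩
      rw [(hq k hk).1]
      exact (hq (⌊β⌋₊ - k) (Nat.sub_le _ _)).2
    · intro a b hab
      exact Subtype.ext (congrArg (fun e : {ε : ℕ → ℕ // IsExpansion β x ε ∧ Balanced β ε} => e.1) hab)

end Pool.Agent.Results.MP_d3ee63_an.Continuum
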